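import Mathlib
import Pool.Agent.MP_c59ecb_co.h76.Square

set_option autoImplicit false

namespace Pool.Agent.Results.MP_c59ecb_co.TrueOrder

/-- The plane is `ℂ`. The closed unit square with vertex `a` and side direction `ω`, `‖ω‖ = 1`, is
the set of the points `a + ω (s + t i)` with `s, t ∈ [0, 1]`. `Covers N L` says that some `N` closed
unit squares cover the closed square `[0, L] ^ 2`. -/
def Covers (N : ℕ) (L : ℝ) : Prop :=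
  ∃ a ω : Fin N → ℂ, (∀ k, ‖ω k‖ = 1) ∧
    ∀ x ∈ Set.Icc (0 : ℝ) L, ∀ y ∈ Set.Icc (0 : ℝ) L, ∃ k, ∃ s ∈ Set.Icc (0 : ℝ) 1,
      ∃ t ∈ Set.Icc (0 : ℝ) 1, (x : ℂ) + y * Complex.I = a k + ω k * (s + t * Complex.I)

/-- The least number of unit squares that cover a square of side `n + ε` for some `ε > 0`. -/
noncomputable def P (n : ℕ) : ℕ := sInf {N : ℕ | ∃ ε : ℝ, 0 < ε ∧ Covers N (n + ε)}

/-- The true order of growth of `P n - n ^ 2` is `n ^ (3 / 5)`. -/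
theorem result : ∃ κ C : ℝ, 0 < κ ∧ ∀ n : ℕ, 1 ≤ n →
    κ * (n : ℝ) ^ (3 / 5 : ℝ) ≤ (P n : ℝ) - (n : ℝ) ^ 2 ∧
      (P n : ℝ) - (n : ℝ) ^ 2 ≤ C * (n : ℝ) ^ (3 / 5 : ℝ) := by
  refine ⟨1 / 10 ^ 30, 10 ^ 11, by norm_num, fun n hn => ?_⟩
  obtain ⟨ε, hε, N, a, ω, h1, h2, h3⟩ := Pool.Agent.MP_c59ecb_co.h76.upper n hn
  have h4 : N ∈ {N : ℕ | ∃ ε : ℝ, 0 < ε ∧ Covers N (n + ε)} := ⟨ε, hε, a, ω, h1, h2⟩
  obtain ⟨δ, hδ, b, ζ, h5, h6⟩ := Nat.sInf_mem ⟨N, h4⟩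
  have h7 := Pool.Agent.MP_c59ecb_co.h76.lower n δ hδ _ b ζ h5 h6
  have h8 : (P n : ℝ) ≤ N := by exact_mod_cast Nat.sInf_le h4
  exact ⟨le_sub_iff_add_le'.2 h7, by linarith⟩

end Pool.Agent.Results.MP_c59ecb_co.TrueOrder
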